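import Pool.Agent.R59.DA.Stm

/-! # Project DA: assembly -/

namespace R59.DA

open Classical

theorem fin (cnt : SCNT) (good : SGOOD) (det : SDET) (del : SDEL) (num : SNUM)
    (r t : ℕ) (hr : 3 ≤ r) (ht : 1 ≤ t) : ∃ α : ℝ, 0 < α ∧ ∀ ε : ℝ, 0 < ε → ∃ n₀ : ℕ,
    ∀ (V : Type) [Fintype V] (D : V → V → Prop), (∀ v, ¬ D v v) → n₀ ≤ Fintype.card V →
      ¬ HasTT D r t →
      (∀ v, ((3 * (r : ℝ) - 7) / (3 * (r : ℝ) - 4) + ε) * Fintype.card V
        ≤ ((outIn D Finset.univ v).card : ℝ)) →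
      ∃ F : Finset (V × V), (∀ z ∈ F, D z.1 z.2) ∧
        (F.card : ℝ) ≤ 2 * (Fintype.card V : ℝ) ^ (2 - α) ∧
        ∃ c : V → Fin (r - 1), ∀ x y, D x y → (x, y) ∉ F → c x ≠ c y := by
  obtain ⟨k, rfl⟩ : ∃ k, r = k + 2 := ⟨r - 2, by omega⟩
  have hk : 1 ≤ k := by omega
  obtain ⟨β, hβ0, hβ1, n1, hcnt⟩ := cnt (k + 2) t (by omega) ht
  have hk2 : (0 : ℝ) < 4 * ((k : ℝ) + 2) := by positivity
  refine ⟨β / (4 * ((k : ℝ) + 2)), by positivity, ?_⟩
  intro ε hε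
  set η : ℝ := min ε 1 / 2 with hη
  have hη0 : 0 < η := by
    have : 0 < min ε 1 := lt_min hε one_pos
    rw [hη]; linarith
  have hη1 : η ≤ 1 := by
    have : min ε 1 ≤ 1 := min_le_right _ _
    rw [hη]; linarith
  have hηε : 2 * η ≤ ε := by
    have : min ε 1 ≤ ε := min_le_left _ _
    rw [hη]; linarith
  obtain ⟨n2, hnum⟩ := num k β η hβ0 hβ1 hη0 hη1
  refine ⟨max (max n1 n2) 1, ?_⟩
  intro V _ D hirr hn hfree hdeg
  have hn1 : n1 ≤ Fintype.card V := le_trans (le_trans (le_max_left _ _) (le_max_left _ _)) hn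
  have hn2 : n2 ≤ Fintype.card V := le_trans (le_trans (le_max_right _ _) (le_max_left _ _)) hn
  have hn0 : 1 ≤ Fintype.card V := le_trans (le_max_right _ _) hn
  have hnpos : (0 : ℝ) < Fintype.card V := by exact_mod_cast hn0
  obtain ⟨u, q, hu, h1, h2, h3, h4⟩ := hnum (Fintype.card V) hn2
  by_contra hcon
  set α : ℝ := β / (4 * ((k : ℝ) + 2)) with hα
  have hpow : (Fintype.card V : ℝ) ^ (-α) * (Fintype.card V : ℝ) ^ 2
      = (Fintype.card V : ℝ) ^ (2 - α) := by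
    rw [← Real.rpow_natCast (Fintype.card V : ℝ) 2, ← Real.rpow_add hnpos]
    congr 1
    push_cast
    ring
  have hQ : ∀ (s : Fin u → V) (φ : Fin u → Fin (k + 1)),
      (Fintype.card V : ℝ) ^ (-α) * (Fintype.card V : ℝ) ^ 2 ≤ ((QQ D s φ).card : ℝ) := by
    intro s φ
    by_contra hlt
    rw [not_le, hpow] at hlt
    obtain ⟨F, hF1, hF2, c, hc⟩ := del k u V D s φ hirr
    apply hcon
    refine ⟨F, hF1, ?_, c, hc⟩
    have : (F.card : ℝ) ≤ 2 * ((QQ D s φ).card : ℝ) := by exact_mod_cast hF2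
    linarith
  set p0 : ℝ := (3 * (k : ℝ) - 1) / (3 * (k : ℝ) + 2) with hp0
  have hthr : (3 * (((k + 2 : ℕ)) : ℝ) - 7) / (3 * (((k + 2 : ℕ)) : ℝ) - 4) = p0 := by
    rw [hp0]
    push_cast
    congr 1 <;> ring
  have hgood := good (k + 2) k u q V D (p0 + η) η ((Fintype.card V : ℝ) ^ (-α))
    (fun s φ => QQ D s φ) hirr (by omega) hη0 hη1
    (by
      intro v
      have h := hdeg v
      rw [hthr] at h
      refine le_trans ?_ h
      apply mul_le_mul_of_nonneg_right _ hnpos.le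
      linarith)
    (by
      have hT := hcnt V D hirr hfree hn1
      refine le_trans ?_ h1
      exact mul_le_mul_of_nonneg_left hT (by positivity))
    h2 h3 h4 hQ
  obtain ⟨s, w, g1, g2, g3, g4, g5⟩ := hgood
  obtain ⟨φ, hφ⟩ := det k u q V D (p0 + η) s w hk hirr hu (by linarith) g1 g2 g3 g4
  obtain ⟨j, hj⟩ := g5 φ
  exact hφ j hj

end R59.DA
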