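import Mathlib

/-!
# Project DA (MP_cbc67c_co): exact statements of the pieces
Proofs: see NOTES.md in this folder.
-/

namespace R59.DA

open Classical

/-- out-neighbours of `v` inside the finite set `S` -/
noncomputable def outIn {V : Type} (D : V → V → Prop) (S : Finset V) (v : V) : Finset V :=
  S.filter (fun w => D v w)

/-- a transitive tournament on `r` vertices inside `S` -/
def HasTIn {V : Type} (D : V → V → Prop) (S : Finset V) (r : ℕ) : Prop :=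
  ∃ f : Fin r → V, (∀ i, f i ∈ S) ∧ ∀ i j : Fin r, i < j → D (f i) (f j)

/-- DA-GR (greedy). -/
def SGR : Prop := ∀ (V : Type) (D : V → V → Prop) (S : Finset V) (g : ℝ), 0 < g →
  (∀ v ∈ S, (S.card : ℝ) - (outIn D S v).card < g) →
  ∀ (j : ℕ) (X : Finset V), X ⊆ S → g * j < X.card → HasTIn D X (j + 1)

/-- DA-STR (structure step of the directed Andrasfai-Erdos-Sos theorem). -/
def SSTR : Prop := ∀ (k : ℕ) (V : Type) (D : V → V → Prop) (S : Finset V) (μ : ℝ),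
  (∀ v, ¬ D v v) → 0 < μ → (3 * (k : ℝ) + 5) * μ = S.card → ¬ HasTIn D S (k + 3) →
  (∀ v ∈ S, (S.card : ℝ) - (outIn D S v).card < 3 * μ) →
  (∀ x ∈ S, ∃ c : V → Fin (k + 1), ∀ u ∈ outIn D S x, ∀ v ∈ outIn D S x, D u v → c u ≠ c v) →
  ∀ A : Fin (k + 2) → Finset V, (∀ i, A i ⊆ S) → (∀ i j, i ≠ j → Disjoint (A i) (A j)) →
    (∀ i, ∀ u ∈ A i, ∀ v ∈ A i, ¬ D u v) → (∀ i, 2 * μ < ((A i).card : ℝ)) →
    ∃ c : V → Fin (k + 2), ∀ u ∈ S, ∀ v ∈ S, D u v → c u ≠ c v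

/-- DA-AES: the directed Andrasfai-Erdos-Sos theorem, relative to a finite set. -/
def SAES : Prop := ∀ (k : ℕ) (V : Type) (D : V → V → Prop) (S : Finset V),
  (∀ v, ¬ D v v) → ¬ HasTIn D S (k + 2) →
  (∀ v ∈ S, (3 * (k : ℝ) - 1) * S.card < (3 * (k : ℝ) + 2) * (outIn D S v).card) →
  ∃ c : V → Fin (k + 1), ∀ u ∈ S, ∀ v ∈ S, D u v → c u ≠ c v

/-- DA-BOX: the box theorem of Erdos for `r`-tuples. -/
def SBOX : Prop := ∀ r t : ℕ, 1 ≤ r → 1 ≤ t → ∃ β : ℝ, 0 < β ∧ β ≤ 1 ∧ ∃ n₀ : ℕ,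
  ∀ (V : Type) [Fintype V] (H : Finset (Fin r → V)), n₀ ≤ Fintype.card V →
    (Fintype.card V : ℝ) ^ ((r : ℝ) - β) < H.card →
    ∃ A : Fin r → Finset V, (∀ i, (A i).card = t) ∧ ∀ f : Fin r → V, (∀ i, f i ∈ A i) → f ∈ H

/-- all `r`-tuples spanning a transitive tournament -/
noncomputable def TT {V : Type} [Fintype V] (D : V → V → Prop) (r : ℕ) : Finset (Fin r → V) :=
  Finset.univ.filter (fun f => ∀ i j : Fin r, i < j → D (f i) (f j))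

/-- `D` contains the blow-up `T_r[t]` -/
def HasTT {V : Type} (D : V → V → Prop) (r t : ℕ) : Prop :=
  ∃ f : Fin r × Fin t → V, Function.Injective f ∧
    ∀ i j : Fin r, i < j → ∀ a b : Fin t, D (f (i, a)) (f (j, b))

/-- DA-CNT: a `T_r[t]`-free digraph has few copies of `T_r`. -/
def SCNT : Prop := ∀ r t : ℕ, 2 ≤ r → 1 ≤ t → ∃ β : ℝ, 0 < β ∧ β ≤ 1 ∧ ∃ n₀ : ℕ,
  ∀ (V : Type) [Fintype V] (D : V → V → Prop), (∀ v, ¬ D v v) → ¬ HasTT D r t →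
    n₀ ≤ Fintype.card V → ((TT D r).card : ℝ) ≤ (Fintype.card V : ℝ) ^ ((r : ℝ) - β)

/-- DA-HOE: a Chernoff bound in counting form. -/
def SHOE : Prop := ∀ (X : Type) [Fintype X] (N : Finset X) (m : ℕ) (p δ : ℝ), 0 ≤ δ → δ ≤ 1 →
  (p + δ) * Fintype.card X ≤ N.card →
  ((Finset.univ.filter (fun s : Fin m → X =>
      ((Finset.univ.filter (fun j : Fin m => s j ∈ N)).card : ℝ) < p * m)).card : ℝ)
    ≤ Real.exp (-(δ ^ 2 * m / 2)) * (Fintype.card X : ℝ) ^ m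

/-- DA-CAT: missing a large set with `q` samples. -/
def SCAT : Prop := ∀ (X : Type) [Fintype X] (Q : Finset X) (q : ℕ) (θ : ℝ),
  θ * Fintype.card X ≤ Q.card →
  ((Finset.univ.filter (fun w : Fin q → X => ∀ j, w j ∉ Q)).card : ℝ)
    ≤ Real.exp (-(θ * q)) * (Fintype.card X : ℝ) ^ q

/-- DA-FREE: the expected number of transitive tournaments in a random sample. -/
def SFREE : Prop := ∀ (r : ℕ) (V I : Type) [Fintype V] [Fintype I] (D : V → V → Prop),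
  (∀ v, ¬ D v v) →
  ((Finset.univ.filter (fun x : I → V =>
      ∃ g : Fin r → I, ∀ i j : Fin r, i < j → D (x (g i)) (x (g j)))).card : ℝ)
      * (Fintype.card V : ℝ) ^ r
    ≤ (Fintype.card I : ℝ) ^ r * (TT D r).card * (Fintype.card V : ℝ) ^ (Fintype.card I)

/-- the combined sample, indexed by `Fin u ⊕ (Fin q ⊕ Fin q)` -/
def samp {V : Type} {u q : ℕ} (s : Fin u → V) (w : Fin q → V × V) :
    Fin u ⊕ (Fin q ⊕ Fin q) → V :=
  Sum.elim s (Sum.elim (fun j => (w j).1) (fun j => (w j).2))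

/-- DA-GOOD: a good sample exists. -/
def SGOOD : Prop := ∀ (r k u q : ℕ) (V : Type) [Fintype V] (D : V → V → Prop) (p η θ : ℝ)
  (Q : (Fin u → V) → (Fin u → Fin (k + 1)) → Finset (V × V)),
  (∀ v, ¬ D v v) → 0 < Fintype.card V → 0 < η → η ≤ 1 →
  (∀ v, (p + η) * Fintype.card V ≤ (outIn D Finset.univ v).card) →
  ((u : ℝ) + 2 * q) ^ r * (TT D r).card ≤ (1 / 8) * (Fintype.card V : ℝ) ^ r →
  (Fintype.card V : ℝ) * Real.exp (-(η ^ 2 * u / 2)) ≤ 1 / 8 →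
  (Fintype.card V : ℝ) * Real.exp (-(η ^ 2 * q / 2)) ≤ 1 / 8 →
  ((k : ℝ) + 1) ^ u * Real.exp (-(θ * q)) ≤ 1 / 8 →
  (∀ s φ, θ * (Fintype.card V : ℝ) ^ 2 ≤ (Q s φ).card) →
  ∃ (s : Fin u → V) (w : Fin q → V × V),
    (¬ ∃ g : Fin r → Fin u ⊕ (Fin q ⊕ Fin q),
        ∀ i j : Fin r, i < j → D (samp s w (g i)) (samp s w (g j))) ∧
    (∀ v, p * u ≤ ((Finset.univ.filter (fun j : Fin u => D v (s j))).card : ℝ)) ∧
    (∀ v, p * q ≤ ((Finset.univ.filter (fun j : Fin q => D v (w j).1)).card : ℝ)) ∧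
    (∀ v, p * q ≤ ((Finset.univ.filter (fun j : Fin q => D v (w j).2)).card : ℝ)) ∧
    (∀ φ : Fin u → Fin (k + 1), ∃ j, w j ∈ Q s φ)

/-- the colours seen by `v` through the sample `s` coloured by `φ` -/
noncomputable def seen {V : Type} {u k : ℕ} (D : V → V → Prop) (s : Fin u → V)
    (φ : Fin u → Fin (k + 1)) (v : V) : Finset (Fin (k + 1)) :=
  Finset.univ.filter (fun c => ∃ j, D v (s j) ∧ φ j = c)

/-- the colour forced on `v` -/
noncomputable def col {V : Type} {u k : ℕ} (D : V → V → Prop) (s : Fin u → V)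
    (φ : Fin u → Fin (k + 1)) (v : V) : Fin (k + 1) :=
  if h : ∃ c, c ∉ seen D s φ v then Classical.choose h else 0

/-- the pairs that refute the forced colouring -/
noncomputable def QQ {V : Type} [Fintype V] {u k : ℕ} (D : V → V → Prop) (s : Fin u → V)
    (φ : Fin u → Fin (k + 1)) : Finset (V × V) :=
  Finset.univ.filter (fun z => seen D s φ z.1 = Finset.univ ∨
    (D z.1 z.2 ∧ seen D s φ z.1 ≠ Finset.univ ∧ seen D s φ z.2 ≠ Finset.univ ∧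
      col D s φ z.1 = col D s φ z.2))

/-- DA-DET: a good sample has a colouring that is not refuted. -/
def SDET : Prop := ∀ (k u q : ℕ) (V : Type) (D : V → V → Prop) (p : ℝ) [Fintype V]
  (s : Fin u → V) (w : Fin q → V × V),
  1 ≤ k → (∀ v, ¬ D v v) → 1 ≤ u → (3 * (k : ℝ) - 1) / (3 * (k : ℝ) + 2) < p →
  (¬ ∃ g : Fin (k + 2) → Fin u ⊕ (Fin q ⊕ Fin q),
      ∀ i j : Fin (k + 2), i < j → D (samp s w (g i)) (samp s w (g j))) →
  (∀ v, p * u ≤ ((Finset.univ.filter (fun j : Fin u => D v (s j))).card : ℝ)) →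
  (∀ v, p * q ≤ ((Finset.univ.filter (fun j : Fin q => D v (w j).1)).card : ℝ)) →
  (∀ v, p * q ≤ ((Finset.univ.filter (fun j : Fin q => D v (w j).2)).card : ℝ)) →
  ∃ φ : Fin u → Fin (k + 1), ∀ j, w j ∉ QQ D s φ

/-- DA-DEL: deleting at most `2 |QQ|` arcs leaves a `(k+1)`-partite digraph. -/
def SDEL : Prop := ∀ (k u : ℕ) (V : Type) [Fintype V] (D : V → V → Prop)
  (s : Fin u → V) (φ : Fin u → Fin (k + 1)), (∀ v, ¬ D v v) →
  ∃ F : Finset (V × V), (∀ z ∈ F, D z.1 z.2) ∧ F.card ≤ 2 * (QQ D s φ).card ∧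
    ∃ c : V → Fin (k + 1), ∀ x y, D x y → (x, y) ∉ F → c x ≠ c y

/-- DA-NUM: choice of the parameters. -/
def SNUM : Prop := ∀ (k : ℕ) (β η : ℝ), 0 < β → β ≤ 1 → 0 < η → η ≤ 1 → ∃ n₀ : ℕ, ∀ n : ℕ, n₀ ≤ n →
  ∃ u q : ℕ, 1 ≤ u ∧
    ((u : ℝ) + 2 * q) ^ (k + 2) * (n : ℝ) ^ (((k + 2 : ℕ) : ℝ) - β) ≤ (1 / 8) * (n : ℝ) ^ (k + 2) ∧
    (n : ℝ) * Real.exp (-(η ^ 2 * u / 2)) ≤ 1 / 8 ∧
    (n : ℝ) * Real.exp (-(η ^ 2 * q / 2)) ≤ 1 / 8 ∧
    ((k : ℝ) + 1) ^ u * Real.exp (-((n : ℝ) ^ (-(β / (4 * ((k : ℝ) + 2)))) * q)) ≤ 1 / 8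

end R59.DA
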