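import Mathlib
import Pool.Agent.R59.DA.Stm

/-! DA-GOOD: a good sample exists (copy of Pool/Agent/R64/DA_GOOD.lean by helper64, one proof changed). -/

open Classical

namespace R59.DA.Good64

open R59.DA

/-- number of elements with the property `P` -/
noncomputable def cnt {Z : Type} [Fintype Z] (P : Z → Prop) : ℝ :=
  ((Finset.univ.filter P).card : ℝ)

theorem cnt_eq {Z : Type} [Fintype Z] (P : Z → Prop) [DecidablePred P] :
    ((Finset.univ.filter P).card : ℝ) = cnt P := by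
  unfold cnt
  congr

theorem card_prod_le {S W : Type} [Fintype S] [Fintype W] (P : S → W → Prop) (c : ℝ)
    (h : ∀ s, cnt (P s) ≤ c) :
    cnt (fun z : S × W => P z.1 z.2) ≤ Fintype.card S * c := by
  have e : (Finset.univ.filter (fun z : S × W => P z.1 z.2)).card =
      ∑ s, (Finset.univ.filter (fun w => P s w)).card := by
    rw [Finset.card_filter, Fintype.sum_prod_type]
    apply Finset.sum_congr rfl
    intro s _
    rw [Finset.card_filter]
  unfold cnt
  rw [e]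
  push_cast
  calc ∑ s : S, ((Finset.univ.filter (fun w => P s w)).card : ℝ) ≤ ∑ s : S, c :=
        Finset.sum_le_sum (fun s _ => h s)
    _ = Fintype.card S * c := by simp

theorem card_fst {S W : Type} [Fintype S] [Fintype W] (P : S → Prop) :
    cnt (fun z : S × W => P z.1) = cnt P * Fintype.card W := by
  have : (Finset.univ.filter (fun z : S × W => P z.1)) =
      (Finset.univ.filter P) ×ˢ Finset.univ := by
    ext z
    simp
  unfold cnt
  rw [this, Finset.card_product, Finset.card_univ, Nat.cast_mul]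

theorem card_snd {S W : Type} [Fintype S] [Fintype W] (P : W → Prop) :
    cnt (fun z : S × W => P z.2) = Fintype.card S * cnt P := by
  have : (Finset.univ.filter (fun z : S × W => P z.2)) =
      Finset.univ ×ˢ (Finset.univ.filter P) := by
    ext z
    simp
  unfold cnt
  rw [this, Finset.card_product, Finset.card_univ, Nat.cast_mul]

theorem card_union {V Z : Type} [Fintype V] [Fintype Z] (P : V → Z → Prop) (c : ℝ)
    (h : ∀ v, cnt (P v) ≤ c) :
    cnt (fun z => ∃ v, P v z) ≤ Fintype.card V * c := by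
  rw [← cnt_eq (fun z => ∃ v, P v z)]
  unfold cnt at h
  have e : (Finset.univ.filter (fun z => ∃ v, P v z)) ⊆
      Finset.univ.biUnion (fun v => Finset.univ.filter (fun z => P v z)) := by
    intro z hz
    simpa using hz
  calc ((Finset.univ.filter (fun z => ∃ v, P v z)).card : ℝ)
      ≤ ((Finset.univ.biUnion (fun v => Finset.univ.filter (fun z => P v z))).card : ℝ) := by
        exact_mod_cast Finset.card_le_card e
    _ ≤ ((∑ v, (Finset.univ.filter (fun z => P v z)).card : ℕ) : ℝ) := by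
        exact_mod_cast Finset.card_biUnion_le
    _ = ∑ v, ((Finset.univ.filter (fun z => P v z)).card : ℝ) := by push_cast; rfl
    _ ≤ ∑ v : V, c := Finset.sum_le_sum (fun v _ => h v)
    _ = Fintype.card V * c := by simp

theorem cnt_inj {Z X : Type} [Fintype Z] [Fintype X] (P : Z → Prop) (Q : X → Prop) (f : Z → X)
    (hf : Function.Injective f) (h : ∀ z, P z → Q (f z)) : cnt P ≤ cnt Q := by
  unfold cnt
  have : (Finset.univ.filter P).card ≤ (Finset.univ.filter Q).card := by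
    apply Finset.card_le_card_of_injOn f
    · intro z hz
      have hz' := (Finset.mem_filter.mp hz).2
      exact Finset.mem_coe.mpr (Finset.mem_filter.mpr ⟨Finset.mem_univ _, h z hz'⟩)
    · exact hf.injOn
  exact_mod_cast this

theorem cnt_or {Z : Type} [Fintype Z] (P Q : Z → Prop) :
    cnt (fun z => P z ∨ Q z) ≤ cnt P + cnt Q := by
  rw [← cnt_eq (fun z => P z ∨ Q z)]
  unfold cnt
  have h1 : (Finset.univ.filter (fun z => P z ∨ Q z)) ⊆
      (Finset.univ.filter P) ∪ (Finset.univ.filter Q) := by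
    intro z hz
    simpa using hz
  have := (Finset.card_le_card h1).trans (Finset.card_union_le _ _)
  exact_mod_cast this

theorem five {Z : Type} [Fintype Z] (P1 P2 P3 P4 P5 : Z → Prop) (N : ℝ) (hN : 0 < N)
    (hc : (Fintype.card Z : ℝ) = N) (b1 : cnt P1 ≤ 1 / 8 * N) (b2 : cnt P2 ≤ 1 / 8 * N)
    (b3 : cnt P3 ≤ 1 / 8 * N) (b4 : cnt P4 ≤ 1 / 8 * N) (b5 : cnt P5 ≤ 1 / 8 * N) :
    ∃ z, ¬ P1 z ∧ ¬ P2 z ∧ ¬ P3 z ∧ ¬ P4 z ∧ ¬ P5 z := by
  by_contra hcon
  have h1 : ∀ z, P1 z ∨ (P2 z ∨ (P3 z ∨ (P4 z ∨ P5 z))) := by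
    intro z
    by_contra h
    apply hcon
    refine ⟨z, ?_⟩
    simpa only [not_or] using h
  have h2 : cnt (fun z => P1 z ∨ (P2 z ∨ (P3 z ∨ (P4 z ∨ P5 z)))) = N := by
    rw [← cnt_eq (fun z => P1 z ∨ (P2 z ∨ (P3 z ∨ (P4 z ∨ P5 z)))),
      Finset.filter_true_of_mem (fun z _ => h1 z), Finset.card_univ, hc]
  have h3 := cnt_or P1 (fun z => P2 z ∨ (P3 z ∨ (P4 z ∨ P5 z)))
  have h4 := cnt_or P2 (fun z => (P3 z ∨ (P4 z ∨ P5 z)))
  have h5 := cnt_or P3 (fun z => (P4 z ∨ P5 z))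
  have h6 := cnt_or P4 P5
  linarith

theorem hoe' (h2 : SHOE) {X : Type} [Fintype X] (N : X → Prop) (m : ℕ) (p δ : ℝ) (h0 : 0 ≤ δ)
    (h1 : δ ≤ 1) (h : (p + δ) * Fintype.card X ≤ cnt N) :
    cnt (fun s : Fin m → X =>
      ((Finset.univ.filter (fun j : Fin m => N (s j))).card : ℝ) < p * m) ≤
      Real.exp (-(δ ^ 2 * m / 2)) * (Fintype.card X : ℝ) ^ m := by
  have hh := h2 X (Finset.univ.filter N) m p δ h0 h1 h
  unfold cnt
  simp only [Finset.mem_filter, Finset.mem_univ, true_and] at hh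
  convert hh

theorem cat' (h3 : SCAT) {X : Type} [Fintype X] (Q : Finset X) (q : ℕ) (θ : ℝ)
    (h : θ * Fintype.card X ≤ Q.card) :
    cnt (fun w : Fin q → X => ∀ j, w j ∉ Q) ≤
      Real.exp (-(θ * q)) * (Fintype.card X : ℝ) ^ q := by
  have hh := h3 X Q q θ h
  unfold cnt
  convert hh

theorem free' (h1 : SFREE) (r : ℕ) {V I : Type} [Fintype V] [Fintype I] [hd : DecidableEq I]
    (D : V → V → Prop) (hirr : ∀ v, ¬ D v v) :
    cnt (fun x : I → V => ∃ g : Fin r → I, ∀ i j : Fin r, i < j → D (x (g i)) (x (g j)))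
      * (Fintype.card V : ℝ) ^ r
    ≤ (Fintype.card I : ℝ) ^ r * (TT D r).card * (Fintype.card V : ℝ) ^ (Fintype.card I) := by
  have e : hd = (fun a b => Classical.propDecidable (a = b)) := Subsingleton.elim _ _
  subst e
  have hh := h1 r V I D hirr
  rw [cnt_eq] at hh
  exact hh

theorem bad1 (h1 : SFREE) (r u q : ℕ) {V : Type} [Fintype V] (D : V → V → Prop)
    (hirr : ∀ v, ¬ D v v) (n : ℝ) (hnn : n = Fintype.card V) (hn0 : 0 < n)
    (hfree : ((u : ℝ) + 2 * q) ^ r * (TT D r).card ≤ (1 / 8) * n ^ r) :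
    cnt (fun z : (Fin u → V) × (Fin q → V × V) =>
      ∃ g : Fin r → Fin u ⊕ (Fin q ⊕ Fin q),
        ∀ i j : Fin r, i < j → D (samp z.1 z.2 (g i)) (samp z.1 z.2 (g j))) ≤
      1 / 8 * (n ^ u * (n ^ 2) ^ q) := by
  have hf := free' h1 r (I := Fin u ⊕ (Fin q ⊕ Fin q)) D hirr
  have hcI' : Fintype.card (Fin u ⊕ (Fin q ⊕ Fin q)) = u + 2 * q := by
    simp only [Fintype.card_sum, Fintype.card_fin]; ring
  have hcI : (Fintype.card (Fin u ⊕ (Fin q ⊕ Fin q)) : ℝ) = (u : ℝ) + 2 * q := by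
    rw [hcI']; push_cast; ring
  rw [← hnn, hcI, hcI'] at hf
  have hle : cnt (fun z : (Fin u → V) × (Fin q → V × V) =>
      ∃ g : Fin r → Fin u ⊕ (Fin q ⊕ Fin q),
        ∀ i j : Fin r, i < j → D (samp z.1 z.2 (g i)) (samp z.1 z.2 (g j))) ≤
      cnt (fun x : Fin u ⊕ (Fin q ⊕ Fin q) → V =>
          ∃ g : Fin r → Fin u ⊕ (Fin q ⊕ Fin q), ∀ i j : Fin r, i < j →
            D (x (g i)) (x (g j))) := by
    apply cnt_inj _ _ (fun z => samp z.1 z.2)
    · rintro ⟨s, w⟩ ⟨s', w'⟩ heq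
      have e1 : s = s' := by
        funext i
        exact congrFun heq (Sum.inl i)
      have e2 : w = w' := by
        funext i
        apply Prod.ext
        · exact congrFun heq (Sum.inr (Sum.inl i))
        · exact congrFun heq (Sum.inr (Sum.inr i))
      rw [e1, e2]
    · intro z hz
      exact hz
  refine hle.trans ?_
  have hnr : 0 < n ^ r := by positivity
  have hpow : n ^ (u + 2 * q) = n ^ u * (n ^ 2) ^ q := by rw [pow_add, pow_mul]
  rw [hpow] at hf
  have hNpos : 0 < n ^ u * (n ^ 2) ^ q := by positivity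
  have hstep : ((u : ℝ) + 2 * q) ^ r * (TT D r).card * (n ^ u * (n ^ 2) ^ q) ≤
      1 / 8 * n ^ r * (n ^ u * (n ^ 2) ^ q) :=
    mul_le_mul_of_nonneg_right hfree hNpos.le
  have h5 := hf.trans hstep
  have h6 : 1 / 8 * n ^ r * (n ^ u * (n ^ 2) ^ q) =
      (1 / 8 * (n ^ u * (n ^ 2) ^ q)) * n ^ r := by ring
  rw [h6] at h5
  exact le_of_mul_le_mul_right h5 hnr

theorem bad2 (h2 : SHOE) (u : ℕ) {V W : Type} [Fintype V] [Fintype W] (D : V → V → Prop)
    (p η : ℝ) (h0 : 0 ≤ η) (h1 : η ≤ 1) (n : ℝ) (hnn : n = Fintype.card V) (hn0 : 0 < n)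
    (hdeg : ∀ v, (p + η) * n ≤ (outIn D Finset.univ v).card)
    (hu : n * Real.exp (-(η ^ 2 * u / 2)) ≤ 1 / 8) :
    cnt (fun z : (Fin u → V) × W =>
      ∃ v, ((Finset.univ.filter (fun j : Fin u => D v (z.1 j))).card : ℝ) < p * u) ≤
      1 / 8 * (n ^ u * Fintype.card W) := by
  refine (card_union (V := V) (Z := (Fin u → V) × W)
    (fun v z => ((Finset.univ.filter (fun j : Fin u => D v (z.1 j))).card : ℝ) < p * u)
    (Real.exp (-(η ^ 2 * u / 2)) * n ^ u * Fintype.card W) ?_).trans ?_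
  · intro v
    rw [card_fst (S := Fin u → V) (W := W)
      (fun s => ((Finset.univ.filter (fun j : Fin u => D v (s j))).card : ℝ) < p * u)]
    apply mul_le_mul_of_nonneg_right _ (by positivity)
    have hh := hoe' h2 (D v) u p η h0 h1 (by rw [← hnn]; exact hdeg v)
    rw [← hnn] at hh
    exact hh
  · rw [← hnn]
    have hN : 0 ≤ n ^ u * (Fintype.card W : ℝ) := by positivity
    calc n * (Real.exp (-(η ^ 2 * u / 2)) * n ^ u * Fintype.card W)
        = (n * Real.exp (-(η ^ 2 * u / 2))) * (n ^ u * Fintype.card W) := by ring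
      _ ≤ 1 / 8 * (n ^ u * Fintype.card W) := mul_le_mul_of_nonneg_right hu hN

theorem bad34 (h2 : SHOE) (q : ℕ) {V X S : Type} [Fintype V] [Fintype X] [Fintype S]
    (N : V → X → Prop) (p η : ℝ) (h0 : 0 ≤ η) (h1 : η ≤ 1) (n : ℝ) (hnn : n = Fintype.card V)
    (hX : (Fintype.card X : ℝ) = n ^ 2) (hn0 : 0 < n)
    (hdeg : ∀ v, (p + η) * n ^ 2 ≤ cnt (N v))
    (hq : n * Real.exp (-(η ^ 2 * q / 2)) ≤ 1 / 8) :
    cnt (fun z : S × (Fin q → X) =>
      ∃ v, ((Finset.univ.filter (fun j : Fin q => N v (z.2 j))).card : ℝ) < p * q) ≤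
      1 / 8 * (Fintype.card S * (n ^ 2) ^ q) := by
  refine (card_union (V := V) (Z := S × (Fin q → X))
    (fun v z => ((Finset.univ.filter (fun j : Fin q => N v (z.2 j))).card : ℝ) < p * q)
    (Fintype.card S * (Real.exp (-(η ^ 2 * q / 2)) * (n ^ 2) ^ q)) ?_).trans ?_
  · intro v
    rw [card_snd (S := S) (W := Fin q → X)
      (fun s => ((Finset.univ.filter (fun j : Fin q => N v (s j))).card : ℝ) < p * q)]
    apply mul_le_mul_of_nonneg_left _ (by positivity)
    have hh := hoe' h2 (N v) q p η h0 h1 (by rw [hX]; exact hdeg v)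
    rw [hX] at hh
    exact hh
  · rw [← hnn]
    have hN : 0 ≤ (Fintype.card S : ℝ) * (n ^ 2) ^ q := by positivity
    calc n * (Fintype.card S * (Real.exp (-(η ^ 2 * q / 2)) * (n ^ 2) ^ q))
        = (n * Real.exp (-(η ^ 2 * q / 2))) * (Fintype.card S * (n ^ 2) ^ q) := by ring
      _ ≤ 1 / 8 * (Fintype.card S * (n ^ 2) ^ q) := mul_le_mul_of_nonneg_right hq hN

theorem bad5 (h3 : SCAT) (k u q : ℕ) {X S : Type} [Fintype X] [Fintype S]
    (Q : S → (Fin u → Fin (k + 1)) → Finset X) (θ : ℝ) (n : ℝ) (hn0 : 0 < n)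
    (hX : (Fintype.card X : ℝ) = n ^ 2)
    (hQ : ∀ s φ, θ * n ^ 2 ≤ (Q s φ).card)
    (hcat : ((k : ℝ) + 1) ^ u * Real.exp (-(θ * q)) ≤ 1 / 8) :
    cnt (fun z : S × (Fin q → X) =>
      ∃ φ : Fin u → Fin (k + 1), ∀ j, z.2 j ∉ Q z.1 φ) ≤
      1 / 8 * (Fintype.card S * (n ^ 2) ^ q) := by
  have hck : (Fintype.card (Fin u → Fin (k + 1)) : ℝ) = ((k : ℝ) + 1) ^ u := by
    simp
  refine (card_union (V := Fin u → Fin (k + 1)) (Z := S × (Fin q → X))
    (fun φ z => ∀ j, z.2 j ∉ Q z.1 φ)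
    (Fintype.card S * (Real.exp (-(θ * q)) * (n ^ 2) ^ q)) ?_).trans ?_
  · intro φ
    apply card_prod_le (fun (s : S) (w : Fin q → X) => ∀ j, w j ∉ Q s φ)
    intro s
    have hh := cat' h3 (Q s φ) q θ (by rw [hX]; exact hQ s φ)
    rw [hX] at hh
    exact hh
  · rw [hck]
    have hN : 0 ≤ (Fintype.card S : ℝ) * (n ^ 2) ^ q := by positivity
    calc ((k : ℝ) + 1) ^ u * (Fintype.card S * (Real.exp (-(θ * q)) * (n ^ 2) ^ q))
        = (((k : ℝ) + 1) ^ u * Real.exp (-(θ * q))) * (Fintype.card S * (n ^ 2) ^ q) := by ring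
      _ ≤ 1 / 8 * (Fintype.card S * (n ^ 2) ^ q) := mul_le_mul_of_nonneg_right hcat hN

/-- DA-GOOD -/
theorem good (h1 : SFREE) (h2 : SHOE) (h3 : SCAT) : SGOOD := by
  intro r k u q V _ D p η θ Q hirr hn hη hη1 hdeg hfree hu hq hcat hQ
  obtain ⟨n, hnn⟩ : ∃ n : ℝ, n = Fintype.card V := ⟨_, rfl⟩
  have hn0 : 0 < n := by rw [hnn]; exact_mod_cast hn
  rw [← hnn] at hfree hu hq
  have hdeg' : ∀ v, (p + η) * n ≤ (outIn D Finset.univ v).card := fun v => by
    rw [hnn]; exact hdeg v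
  have hQ' : ∀ s φ, θ * n ^ 2 ≤ (Q s φ).card := fun s φ => by rw [hnn]; exact hQ s φ
  have hcV : (Fintype.card (V × V) : ℝ) = n ^ 2 := by
    rw [Fintype.card_prod, hnn]; push_cast; ring
  have hcs : (Fintype.card (Fin u → V) : ℝ) = n ^ u := by
    rw [hnn]; simp
  have hcw : (Fintype.card (Fin q → V × V) : ℝ) = (n ^ 2) ^ q := by
    rw [← hcV]; simp
  have hNpos : 0 < n ^ u * (n ^ 2) ^ q := by positivity
  have hcard : (Fintype.card ((Fin u → V) × (Fin q → V × V)) : ℝ) = n ^ u * (n ^ 2) ^ q := by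
    rw [Fintype.card_prod, Nat.cast_mul, hcs, hcw]
  have b1 := bad1 h1 r u q D hirr n hnn hn0 hfree
  have b2 := bad2 (W := Fin q → V × V) h2 u D p η hη.le hη1 n hnn hn0 hdeg' hu
  rw [hcw] at b2
  have hc1 : ∀ v, cnt (fun z : V × V => D v z.1) = (outIn D Finset.univ v).card * n := by
    intro v
    rw [card_fst (S := V) (W := V) (fun x => D v x), hnn]
    rfl
  have hc2 : ∀ v, cnt (fun z : V × V => D v z.2) = (outIn D Finset.univ v).card * n := by
    intro v
    rw [card_snd (S := V) (W := V) (fun x => D v x), hnn, mul_comm]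
    rfl
  have hd2 : ∀ v, (p + η) * n ^ 2 ≤ (outIn D Finset.univ v).card * n := by
    intro v
    have := mul_le_mul_of_nonneg_right (hdeg' v) hn0.le
    calc (p + η) * n ^ 2 = (p + η) * n * n := by ring
      _ ≤ _ := this
  have b3 := bad34 (S := Fin u → V) h2 q (fun v (z : V × V) => D v z.1) p η hη.le hη1 n hnn hcV
    hn0 (fun v => by rw [hc1]; exact hd2 v) hq
  rw [hcs] at b3
  have b4 := bad34 (S := Fin u → V) h2 q (fun v (z : V × V) => D v z.2) p η hη.le hη1 n hnn hcV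
    hn0 (fun v => by rw [hc2]; exact hd2 v) hq
  rw [hcs] at b4
  have b5 := bad5 (S := Fin u → V) h3 k u q Q θ n hn0 hcV hQ' hcat
  rw [hcs] at b5
  obtain ⟨z, m1, m2, m3, m4, m5⟩ := five _ _ _ _ _ _ hNpos hcard b1 b2 b3 b4 b5
  refine ⟨z.1, z.2, m1, ?_, ?_, ?_, ?_⟩
  · intro v
    by_contra h
    exact m2 ⟨v, not_le.mp h⟩
  · intro v
    by_contra h
    exact m3 ⟨v, not_le.mp h⟩
  · intro v
    by_contra h
    exact m4 ⟨v, not_le.mp h⟩
  · intro φ
    by_contra h
    exact m5 ⟨φ, fun j hj => h ⟨j, hj⟩⟩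

end R59.DA.Good64
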