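import Pool.Agent.R59.DA.Fin
import Pool.Agent.R971.DA_GR
import Pool.Agent.R101.DA_STR
import Pool.Agent.R415.DA_AES
import Pool.Agent.R146.DA_BOX
import Pool.Agent.R760.DA_CNT
import Pool.Agent.R186.DA_HOE
import Pool.Agent.R569.DA_CAT
import Pool.Agent.R611.DA_FREE
import Pool.Agent.R59.DA.Good
import Pool.Agent.R676.DA_DET
import Pool.Agent.R141.DA_DEL
import Pool.Agent.R21.DA_NUM

/-! # Project DA: main theorem -/

namespace R59.DA

open Classical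

theorem main (r t : ℕ) (hr : 3 ≤ r) (ht : 1 ≤ t) :
    ∃ α : ℝ, 0 < α ∧ ∀ ε : ℝ, 0 < ε → ∃ n₀ : ℕ,
    ∀ (V : Type) [Fintype V] (D : V → V → Prop), (∀ v, ¬ D v v) → n₀ ≤ Fintype.card V →
      ¬ HasTT D r t →
      (∀ v, ((3 * (r : ℝ) - 7) / (3 * (r : ℝ) - 4) + ε) * Fintype.card V
        ≤ ((outIn D Finset.univ v).card : ℝ)) →
      ∃ F : Finset (V × V), (∀ z ∈ F, D z.1 z.2) ∧
        (F.card : ℝ) ≤ 2 * (Fintype.card V : ℝ) ^ (2 - α) ∧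
        ∃ c : V → Fin (r - 1), ∀ x y, D x y → (x, y) ∉ F → c x ≠ c y :=
  fin (Pool.Agent.R760.DA.cnt R59.DA.Box.box)
    (R59.DA.Good64.good R611.DAFREE.free Pool.Agent.R186.DAHoe.hoe Pool.Agent.R569.DACAT.cat)
    (R59.DA.det (Pool.Agent.R415.DA.aes R59.DA.gr (R101.DA.str R59.DA.gr)))
    R59.DA.del Pool.Agent.R21.DA.num r t hr ht

end R59.DA
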